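import Pool.Agent.Y80.KM.Defs2

set_option autoImplicit false

open scoped BigOperators

/-! Job R2 of project KM (helper80): invariants of `gl_2`-modules and weight multiplicities. -/

namespace Pool.Agent.Y76.KM

open Pool.Agent.Y80.KM

section sl2

variable {k M : Type*} [Field k] [CharZero k] [AddCommGroup M] [Module k M]
  [FiniteDimensional k M]

omit [CharZero k] in
theorem exists_zero_of_eig (h : Module.End k M) (v : ℕ → M) (a : ℕ → k)
    (ha : Function.Injective a) (hv : ∀ n, h (v n) = a n • v n) : ∃ n, v n = 0 := by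
  by_contra hcon
  push Not at hcon
  have hfin := Module.End.finite_hasEigenvalue h
  have hsub : Set.range a ⊆ {μ | h.HasEigenvalue μ} := by
    rintro _ ⟨n, rfl⟩
    exact Module.End.hasEigenvalue_of_hasEigenvector
      (Module.End.hasEigenvector_iff.2 ⟨Module.End.mem_eigenspace_iff.2 (hv n), hcon n⟩)
  exact (Set.infinite_range_of_injective ha) (hfin.subset hsub)

variable (E F h : Module.End k M) (hEF : E * F = F * E + h) (hhF : h * F = F * h - 2 • F)

omit [FiniteDimensional k M] in
include hhF in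
theorem h_pow (m : M) (l : k) (hm : h m = l • m) (n : ℕ) :
    h ((F ^ n) m) = (l - 2 * n) • (F ^ n) m := by
  induction n with
  | zero => simp [hm]
  | succ n ih =>
    have h1 : (h * F) ((F ^ n) m) = (F * h - 2 • F) ((F ^ n) m) := by rw [hhF]
    rw [pow_succ', Module.End.mul_apply]
    rw [Module.End.mul_apply, LinearMap.sub_apply, Module.End.mul_apply, ih] at h1
    rw [h1, LinearMap.map_smul, LinearMap.smul_apply, two_smul]
    push_cast
    module

omit [FiniteDimensional k M] in
include hEF hhF in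
theorem e_pow (m : M) (l : k) (hm : h m = l • m) (hE : E m = 0) (n : ℕ) :
    E ((F ^ (n + 1)) m) = (((n : k) + 1) * (l - n)) • (F ^ n) m := by
  induction n with
  | zero =>
    have h1 : (E * F) m = (F * E + h) m := by rw [hEF]
    rw [Module.End.mul_apply, LinearMap.add_apply, Module.End.mul_apply, hE, map_zero, hm] at h1
    simp [h1]
  | succ n ih =>
    have h1 : (E * F) ((F ^ (n + 1)) m) = (F * E + h) ((F ^ (n + 1)) m) := by rw [hEF]
    rw [Module.End.mul_apply, LinearMap.add_apply, Module.End.mul_apply, ih,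
      h_pow F h hhF m l hm (n + 1)] at h1
    rw [pow_succ', Module.End.mul_apply, h1, LinearMap.map_smul, ← Module.End.mul_apply,
      ← pow_succ']
    push_cast
    module

include hEF hhF in
theorem pow_eq_zero (m : M) (l : k) (hm : h m = l • m) (hE : E m = 0) (n0 : ℕ)
    (hn0 : ∀ n, n0 ≤ n → ((n : k) + 1) * (l - n) ≠ 0) : (F ^ n0) m = 0 := by
  by_contra hcon
  have hall : ∀ n, (F ^ (n0 + n)) m ≠ 0 := by
    intro n
    induction n with
    | zero => simpa using hcon
    | succ n ih =>
      intro h0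
      have h1 := e_pow E F h hEF hhF m l hm hE (n0 + n)
      rw [show n0 + n + 1 = n0 + (n + 1) by ring, h0, map_zero] at h1
      exact (smul_ne_zero (hn0 (n0 + n) (by omega)) ih) h1.symm
  obtain ⟨n, hn⟩ := exists_zero_of_eig h (fun n => (F ^ (n0 + n)) m)
    (fun n => l - 2 * ((n0 + n : ℕ) : k))
    (by
      intro a b hab
      have h2 : (2 : k) * ((n0 + a : ℕ) : k) = 2 * ((n0 + b : ℕ) : k) := by
        have := sub_right_injective hab
        exact this
      have h3 : ((n0 + a : ℕ) : k) = ((n0 + b : ℕ) : k) :=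
        mul_left_cancel₀ two_ne_zero h2
      have h4 := Nat.cast_injective h3
      omega)
    (fun n => h_pow F h hhF m l hm (n0 + n))
  exact hall n hn

end sl2

theorem mem_wsp {k M : Type*} [Field k] [AddCommGroup M] [Module k M] {N : ℕ}
    (ρ : Matrix (Fin N) (Fin N) k →ₗ[k] Module.End k M) (μ : Fin N → ℤ) (m : M) :
    m ∈ wsp ρ μ ↔ ∀ j, ρ (Matrix.single j j 1) m = ((μ j : ℤ) : k) • m := by
  unfold wsp
  rw [Submodule.mem_iInf]
  refine forall_congr' fun j => ?_
  rw [LinearMap.mem_ker, LinearMap.sub_apply, sub_eq_zero, LinearMap.smul_apply,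
    LinearMap.id_apply]

theorem single_mem_wsp {k M : Type*} [Field k] [AddCommGroup M] [Module k M] {N : ℕ}
    (ρ : Matrix (Fin N) (Fin N) k →ₗ[k] Module.End k M)
    (hρ : ∀ X Y, ρ (X * Y - Y * X) = ρ X * ρ Y - ρ Y * ρ X) (μ : Fin N → ℤ) (m : M)
    (hm : m ∈ wsp ρ μ) (a b : Fin N) : ρ (Matrix.single a b 1) m ∈ wsp ρ (μ + epsd a b) := by
  rw [mem_wsp] at hm ⊢
  intro j
  have h1 := congrArg (fun f => f m) (hρ (Matrix.single j j 1) (Matrix.single a b 1))
  simp only [LinearMap.sub_apply, Module.End.mul_apply, hm j, LinearMap.map_smul] at h1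
  have h2 : (Matrix.single j j (1 : k) * Matrix.single a b 1 -
      Matrix.single a b 1 * Matrix.single j j 1) = ((epsd a b j : ℤ) : k) • Matrix.single a b 1 := by
    have e1 : Matrix.single j j (1 : k) * Matrix.single a b 1 =
        (if j = a then (1 : k) else 0) • Matrix.single a b 1 := by
      by_cases hja : j = a
      · subst hja; simp
      · rw [Matrix.single_mul_single_of_ne _ _ _ _ hja]; simp [hja]
    have e2 : Matrix.single a b (1 : k) * Matrix.single j j 1 =
        (if j = b then (1 : k) else 0) • Matrix.single a b 1 := by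
      by_cases hjb : j = b
      · subst hjb; simp
      · rw [Matrix.single_mul_single_of_ne _ _ _ _ (Ne.symm hjb)]; simp [hjb]
    rw [e1, e2, ← sub_smul]
    congr 1
    simp only [epsd, Pi.sub_apply, Pi.single_apply]
    split_ifs <;> simp
  rw [h2, LinearMap.map_smul, LinearMap.smul_apply] at h1
  have h3 : ρ (Matrix.single j j 1) (ρ (Matrix.single a b 1) m) =
      ((epsd a b j : ℤ) : k) • ρ (Matrix.single a b 1) m +
        ((μ j : ℤ) : k) • ρ (Matrix.single a b 1) m := by
    rw [h1]; abel
  rw [h3, Pi.add_apply]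
  push_cast
  module

theorem finrank_le_of_inj {k M : Type*} [Field k] [AddCommGroup M] [Module k M]
    [FiniteDimensional k M] (A B : Submodule k M) (T : Module.End k M)
    (hT : ∀ m ∈ A, T m ∈ B) (hi : ∀ m ∈ A, T m = 0 → m = 0) :
    Module.finrank k A ≤ Module.finrank k B := by
  refine LinearMap.finrank_le_finrank_of_injective (f := T.restrict hT) ?_
  rw [← LinearMap.ker_eq_bot, LinearMap.ker_eq_bot']
  intro m hm
  have h1 : T m = 0 := by
    have := congrArg Subtype.val hm
    simpa using this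
  exact Subtype.ext (hi m m.2 h1)

theorem rep2 {k M : Type*} [Field k] [CharZero k] [AddCommGroup M] [Module k M]
    [FiniteDimensional k M] (ρ : Matrix (Fin 2) (Fin 2) k →ₗ[k] Module.End k M)
    (hρ : ∀ X Y, ρ (X * Y - Y * X) = ρ X * ρ Y - ρ Y * ρ X)
    (h1 : ρ 1 = 0) (htop : ⨆ μ : Fin 2 → ℤ, wsp ρ μ = ⊤)
    (hinv : ∀ m : M, (∀ X, ρ X m = 0) → m = 0) :
    e0 2 (fun μ => (Module.finrank k (wsp ρ μ) : ℤ)) = 0 := by
  have _ := htop
  obtain ⟨E, hE⟩ : ∃ E, E = ρ (Matrix.single 0 1 1) := ⟨_, rfl⟩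
  obtain ⟨F, hF⟩ : ∃ F, F = ρ (Matrix.single 1 0 1) := ⟨_, rfl⟩
  obtain ⟨A, hA⟩ : ∃ A, A = ρ (Matrix.single 0 0 1) := ⟨_, rfl⟩
  obtain ⟨D, hD⟩ : ∃ D, D = ρ (Matrix.single 1 1 1) := ⟨_, rfl⟩
  have hone : (1 : Matrix (Fin 2) (Fin 2) k) = Matrix.single 0 0 1 + Matrix.single 1 1 1 := by
    ext i j; fin_cases i <;> fin_cases j <;> simp
  have hAD : D = -A := by
    have : A + D = 0 := by rw [hA, hD, ← map_add, ← hone, h1]
    rw [eq_neg_iff_add_eq_zero, add_comm]; exact this
  have hEF : E * F = F * E + (A - D) := by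
    have := hρ (Matrix.single 0 1 1) (Matrix.single 1 0 1)
    rw [Matrix.single_mul_single_same, Matrix.single_mul_single_same, map_sub, one_mul, ← hE, ← hF,
      ← hA, ← hD] at this
    rw [this]; abel
  have hAE : A * E = E * A + E := by
    have := hρ (Matrix.single 0 0 1) (Matrix.single 0 1 1)
    rw [Matrix.single_mul_single_same, Matrix.single_mul_single_of_ne _ _ _ _ (by decide : (_ : Fin 2) ≠ _), sub_zero,
      one_mul, ← hE, ← hA] at this
    rw [sub_eq_iff_eq_add'.1 this.symm]
  have hAF : A * F = F * A - F := by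
    have := hρ (Matrix.single 0 0 1) (Matrix.single 1 0 1)
    rw [Matrix.single_mul_single_same, Matrix.single_mul_single_of_ne _ _ _ _ (by decide : (_ : Fin 2) ≠ _), zero_sub,
      one_mul, map_neg, ← hF, ← hA] at this
    rw [sub_eq_iff_eq_add'.1 this.symm]; abel
  have hhF : (A - D) * F = F * (A - D) - 2 • F := by
    rw [hAD]
    simp only [sub_neg_eq_add, add_mul, mul_add, hAF]
    abel
  have hhE : (D - A) * E = E * (D - A) - 2 • E := by
    rw [hAD]
    simp only [neg_sub_left, neg_mul, mul_neg, add_mul, mul_add, hAE]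
    abel
  have hFE : F * E = E * F + (D - A) := by rw [hEF]; abel
  -- weights
  have hmem : ∀ (μ : Fin 2 → ℤ) (m : M), m ∈ wsp ρ μ →
      A m = ((μ 0 : ℤ) : k) • m ∧ D m = ((μ 1 : ℤ) : k) • m := by
    intro μ m hm
    rw [mem_wsp] at hm
    exact ⟨by rw [hA]; exact hm 0, by rw [hD]; exact hm 1⟩
  have hzero : ∀ m : M, E m = 0 → F m = 0 → A m = 0 → m = 0 := by
    intro m hEm hFm hAm
    have hDm : D m = 0 := by rw [hAD, LinearMap.neg_apply, hAm, neg_zero]
    apply hinv
    intro X
    rw [Matrix.matrix_eq_sum_single X, map_sum, LinearMap.sum_apply]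
    refine Finset.sum_eq_zero fun i _ => ?_
    rw [map_sum, LinearMap.sum_apply]
    refine Finset.sum_eq_zero fun j _ => ?_
    have hs : Matrix.single i j (X i j) = X i j • Matrix.single i j (1 : k) := by
      rw [Matrix.smul_single, smul_eq_mul, mul_one]
    rw [hs, map_smul, LinearMap.smul_apply]
    have : ρ (Matrix.single i j 1) m = 0 := by
      fin_cases i <;> fin_cases j
      · rw [← hAm, hA]; rfl
      · rw [← hEm, hE]; rfl
      · rw [← hFm, hF]; rfl
      · rw [← hDm, hD]; rfl
    rw [this, smul_zero]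
  -- the two weight spaces
  let w1 : Fin 2 → ℤ := fun i => (((Equiv.swap (0 : Fin 2) 1) i : ℕ) : ℤ) - ((i : ℕ) : ℤ)
  have hw1 : w1 = epsd 0 1 := by
    funext i; fin_cases i <;> simp [w1, epsd]
  have hle1 : Module.finrank k (wsp ρ 0) ≤ Module.finrank k (wsp ρ w1) := by
    refine finrank_le_of_inj _ _ E ?_ ?_
    · intro m hm
      rw [hE, hw1, ← zero_add (epsd 0 1)]
      exact single_mem_wsp ρ hρ 0 m hm 0 1
    · intro m hm hEm
      obtain ⟨ha, hd⟩ := hmem 0 m hm
      simp only [Pi.zero_apply, Int.cast_zero, zero_smul] at ha hd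
      have hFm : F m = 0 := by
        have := pow_eq_zero E F (A - D) hEF hhF m 0 (by rw [LinearMap.sub_apply, ha, hd]; simp)
          hEm 1 (by
            intro n hn
            have h2 : ((n : k) + 1) ≠ 0 := by exact_mod_cast Nat.succ_ne_zero n
            have h3 : (n : k) ≠ 0 := by exact_mod_cast (by omega : n ≠ 0)
            rw [zero_sub]
            exact mul_ne_zero h2 (neg_ne_zero.2 h3))
        simpa using this
      exact hzero m hEm hFm ha
  have hle2 : Module.finrank k (wsp ρ w1) ≤ Module.finrank k (wsp ρ 0) := by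
    refine finrank_le_of_inj _ _ F ?_ ?_
    · intro m hm
      have h0 : (0 : Fin 2 → ℤ) = w1 + epsd 1 0 := by
        rw [hw1]; funext i; fin_cases i <;> simp [epsd]
      rw [hF, h0]
      exact single_mem_wsp ρ hρ w1 m hm 1 0
    · intro m hm hFm
      obtain ⟨ha, hd⟩ := hmem w1 m hm
      have hv0 : w1 0 = 1 := by simp [w1]
      have hv1 : w1 1 = -1 := by simp [w1]
      rw [hv0] at ha
      rw [hv1] at hd
      have := pow_eq_zero F E (D - A) hFE hhE m (-2) (by
        rw [LinearMap.sub_apply, ha, hd]; push_cast; module) hFm 0 (by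
            intro n _
            have h2 : ((n : k) + 1) ≠ 0 := by exact_mod_cast Nat.succ_ne_zero n
            have h3 : ((n : k) + 2) ≠ 0 := by exact_mod_cast Nat.succ_ne_zero (n + 1)
            have h4 : (-2 - (n : k)) = -((n : k) + 2) := by ring
            rw [h4]
            exact mul_ne_zero h2 (neg_ne_zero.2 h3))
      simpa using this
  have heq := le_antisymm hle1 hle2
  have huniv : (Finset.univ : Finset (Equiv.Perm (Fin 2))) = {1, Equiv.swap 0 1} := by decide
  unfold e0
  rw [huniv, Finset.sum_pair (by decide)]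
  have hz : (fun i : Fin 2 => ((((1 : Equiv.Perm (Fin 2)) i : Fin 2) : ℕ) : ℤ) - ((i : ℕ) : ℤ)) = 0 := by
    funext i; simp
  rw [hz]
  change _ + _ * (Module.finrank k (wsp ρ w1) : ℤ) = 0
  rw [← heq, Equiv.Perm.sign_one, Equiv.Perm.sign_swap (by decide)]
  simp

end Pool.Agent.Y76.KM
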