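import Pool.Agent.Y80.KM.Defs2
import Pool.Agent.Y76.KM.R2

set_option autoImplicit false

open scoped BigOperators

/-! Job GLHOM of project KM (helper80): from invariants to equivariant maps from `gl_N`. -/

namespace Pool.Agent.Y76.KM

open Pool.Agent.Y80.KM

universe u

/-- the statement of `rep2`, `rep3` in one universe -/
def RepN (k : Type u) [Field k] (N : ℕ) : Prop :=
  ∀ (M : Type u) [AddCommGroup M] [Module k M] [FiniteDimensional k M]
    (ρ : Matrix (Fin N) (Fin N) k →ₗ[k] Module.End k M),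
    (∀ X Y, ρ (X * Y - Y * X) = ρ X * ρ Y - ρ Y * ρ X) → ρ 1 = 0 →
    (⨆ μ : Fin N → ℤ, wsp ρ μ = ⊤) → (∀ m : M, (∀ X, ρ X m = 0) → m = 0) →
    e0 N (fun μ => (Module.finrank k (wsp ρ μ) : ℤ)) = 0

section hom

variable {k M : Type*} [Field k] {N : ℕ} [AddCommGroup M] [Module k M]

theorem ad_single (j a b : Fin N) :
    (Matrix.single j j (1 : k) * Matrix.single a b 1 -
      Matrix.single a b 1 * Matrix.single j j 1) = ((epsd a b j : ℤ) : k) • Matrix.single a b 1 := by
  have e1 : Matrix.single j j (1 : k) * Matrix.single a b 1 =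
      (if j = a then (1 : k) else 0) • Matrix.single a b 1 := by
    by_cases hja : j = a
    · subst hja; simp
    · rw [Matrix.single_mul_single_of_ne _ _ _ _ hja]; simp [hja]
  have e2 : Matrix.single a b (1 : k) * Matrix.single j j 1 =
      (if j = b then (1 : k) else 0) • Matrix.single a b 1 := by
    by_cases hjb : j = b
    · subst hjb; simp
    · rw [Matrix.single_mul_single_of_ne _ _ _ _ (Ne.symm hjb)]; simp [hjb]
  rw [e1, e2, ← sub_smul]
  congr 1
  simp only [epsd, Pi.sub_apply, Pi.single_apply]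
  split_ifs <;> simp

/-- the action on `Hom(gl_N, M)` -/
def rhoHom (ρ : Matrix (Fin N) (Fin N) k →ₗ[k] Module.End k M) :
    Matrix (Fin N) (Fin N) k →ₗ[k] Module.End k (Matrix (Fin N) (Fin N) k →ₗ[k] M) where
  toFun X :=
    { toFun := fun φ => (ρ X) ∘ₗ φ - φ ∘ₗ (LinearMap.mulLeft k X - LinearMap.mulRight k X)
      map_add' := by
        intro φ ψ
        ext Y
        simp
        abel
      map_smul' := by
        intro c φ
        ext Y
        simp [smul_sub] }
  map_add' := by
    intro X Y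
    ext φ Z
    simp only [map_add, LinearMap.coe_mk, AddHom.coe_mk, LinearMap.sub_apply,
      LinearMap.add_apply, LinearMap.comp_apply, LinearMap.mulLeft_apply, LinearMap.mulRight_apply,
      add_mul, mul_add, map_sub]
    abel
  map_smul' := by
    intro c X
    ext φ Z
    simp only [map_smul, LinearMap.coe_mk, AddHom.coe_mk, LinearMap.sub_apply,
      LinearMap.smul_apply, LinearMap.comp_apply, LinearMap.mulLeft_apply, LinearMap.mulRight_apply,
      smul_mul_assoc, mul_smul_comm, map_sub, RingHom.id_apply, smul_sub]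

theorem rhoHom_apply (ρ : Matrix (Fin N) (Fin N) k →ₗ[k] Module.End k M)
    (X Y : Matrix (Fin N) (Fin N) k) (φ : Matrix (Fin N) (Fin N) k →ₗ[k] M) :
    rhoHom ρ X φ Y = ρ X (φ Y) - φ (X * Y - Y * X) := rfl

theorem rhoHom_comm (ρ : Matrix (Fin N) (Fin N) k →ₗ[k] Module.End k M)
    (hρ : ∀ X Y, ρ (X * Y - Y * X) = ρ X * ρ Y - ρ Y * ρ X) (X Y : Matrix (Fin N) (Fin N) k) :
    rhoHom ρ (X * Y - Y * X) = rhoHom ρ X * rhoHom ρ Y - rhoHom ρ Y * rhoHom ρ X := by
  refine LinearMap.ext fun φ => LinearMap.ext fun Z => ?_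
  simp only [LinearMap.sub_apply, Module.End.mul_apply, rhoHom_apply, hρ]
  have h1 : (X * Y - Y * X) * Z - Z * (X * Y - Y * X) =
      (X * (Y * Z - Z * Y) - (Y * Z - Z * Y) * X) - (Y * (X * Z - Z * X) - (X * Z - Z * X) * Y) := by
    noncomm_ring
  rw [h1, map_sub (f := φ) (X * (Y * Z - Z * Y) - (Y * Z - Z * Y) * X), map_sub (ρ X),
    map_sub (ρ Y)]
  abel

theorem rhoHom_one (ρ : Matrix (Fin N) (Fin N) k →ₗ[k] Module.End k M) (h1 : ρ 1 = 0) :
    rhoHom ρ 1 = 0 := by
  refine LinearMap.ext fun φ => LinearMap.ext fun Z => ?_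
  rw [rhoHom_apply, h1]
  simp

/-- linear maps from matrices are given by their values at the matrix units -/
theorem ext_single {V : Type*} [AddCommGroup V] [Module k V]
    {φ ψ : Matrix (Fin N) (Fin N) k →ₗ[k] V}
    (h : ∀ a b, φ (Matrix.single a b 1) = ψ (Matrix.single a b 1)) : φ = ψ := by
  refine LinearMap.ext fun X => ?_
  have hX : X = ∑ a, ∑ b, X a b • Matrix.single a b (1 : k) := by
    conv_lhs => rw [Matrix.matrix_eq_sum_single X]
    refine Finset.sum_congr rfl fun a _ => Finset.sum_congr rfl fun b _ => ?_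
    rw [Matrix.smul_single]
    simp
  rw [hX]
  simp only [map_sum, map_smul, h]

theorem mem_wsp_hom (ρ : Matrix (Fin N) (Fin N) k →ₗ[k] Module.End k M)
    (φ : Matrix (Fin N) (Fin N) k →ₗ[k] M) (μ : Fin N → ℤ) :
    φ ∈ wsp (rhoHom ρ) μ ↔ ∀ a b, φ (Matrix.single a b 1) ∈ wsp ρ (μ + epsd a b) := by
  rw [mem_wsp]
  constructor
  · intro h a b
    rw [mem_wsp]
    intro j
    have := congrArg (fun f => f (Matrix.single a b 1)) (h j)
    simp only [rhoHom_apply, LinearMap.smul_apply, ad_single, map_smul] at this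
    rw [sub_eq_iff_eq_add] at this
    rw [this, ← add_smul]
    simp
  · intro h j
    apply ext_single
    intro a b
    have := h a b
    rw [mem_wsp] at this
    have := this j
    simp only [rhoHom_apply, LinearMap.smul_apply, ad_single, map_smul]
    rw [this, ← sub_smul]
    simp

/-- the map `Y ↦ Y a b • m` -/
def entryMap (k M : Type*) [Field k] [AddCommGroup M] [Module k M] {N : ℕ} (a b : Fin N) :
    M →ₗ[k] (Matrix (Fin N) (Fin N) k →ₗ[k] M) where
  toFun m :=
    { toFun := fun Y => Y a b • m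
      map_add' := by intro Y Z; rw [Matrix.add_apply, add_smul]
      map_smul' := by intro c Y; rw [Matrix.smul_apply, smul_assoc, RingHom.id_apply] }
  map_add' := by
    intro m n
    refine LinearMap.ext fun Y => ?_
    show Y a b • (m + n) = Y a b • m + Y a b • n
    rw [smul_add]
  map_smul' := by
    intro c m
    refine LinearMap.ext fun Y => ?_
    show Y a b • (c • m) = c • Y a b • m
    rw [smul_comm]

theorem entryMap_single (a b c d : Fin N) (m : M) :
    entryMap k M a b m (Matrix.single c d 1) = if c = a ∧ d = b then m else 0 := by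
  show (Matrix.single c d (1 : k)) a b • m = _
  rw [Matrix.single_apply]
  split_ifs <;> simp

theorem sum_entryMap (φ : Matrix (Fin N) (Fin N) k →ₗ[k] M) :
    φ = ∑ a, ∑ b, entryMap k M a b (φ (Matrix.single a b 1)) := by
  apply ext_single
  intro c d
  simp only [LinearMap.sum_apply, entryMap_single]
  rw [Finset.sum_eq_single c, Finset.sum_eq_single d]
  · simp
  · intro b _ hb
    simp [hb.symm]
  · simp
  · intro a _ ha
    simp [ha.symm]
  · simp

theorem iSup_wsp_hom (ρ : Matrix (Fin N) (Fin N) k →ₗ[k] Module.End k M)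
    (htop : ⨆ μ : Fin N → ℤ, wsp ρ μ = ⊤) : ⨆ μ : Fin N → ℤ, wsp (rhoHom ρ) μ = ⊤ := by
  rw [eq_top_iff]
  have key : ∀ a b (m : M), entryMap k M a b m ∈ ⨆ μ : Fin N → ℤ, wsp (rhoHom ρ) μ := by
    intro a b m
    have hm : m ∈ ⨆ μ : Fin N → ℤ, wsp ρ μ := by rw [htop]; exact Submodule.mem_top
    have h2 : (⨆ μ : Fin N → ℤ, wsp ρ μ) ≤
        (⨆ μ : Fin N → ℤ, wsp (rhoHom ρ) μ).comap (entryMap k M a b) := by
      refine iSup_le fun ν => ?_
      intro x hx
      rw [Submodule.mem_comap]
      refine Submodule.mem_iSup_of_mem (ν - epsd a b) ?_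
      rw [mem_wsp_hom]
      intro c d
      rw [entryMap_single]
      split_ifs with h
      · rw [h.1, h.2, sub_add_cancel]
        exact hx
      · exact zero_mem _
    exact h2 hm
  intro φ _
  rw [sum_entryMap φ]
  exact Submodule.sum_mem _ fun a _ => Submodule.sum_mem _ fun b _ => key a b _

theorem finrank_wsp_hom [FiniteDimensional k M]
    (ρ : Matrix (Fin N) (Fin N) k →ₗ[k] Module.End k M) (μ : Fin N → ℤ) :
    Module.finrank k (wsp (rhoHom ρ) μ) =
      ∑ a, ∑ b, Module.finrank k (wsp ρ (μ + epsd a b)) := by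
  let f : wsp (rhoHom ρ) μ →ₗ[k] ((p : Fin N × Fin N) → wsp ρ (μ + epsd p.1 p.2)) :=
    { toFun := fun φ p => ⟨φ.1 (Matrix.single p.1 p.2 1), (mem_wsp_hom ρ φ.1 μ).1 φ.2 p.1 p.2⟩
      map_add' := fun _ _ => rfl
      map_smul' := fun _ _ => rfl }
  have hinj : Function.Injective f := by
    intro φ ψ h
    apply Subtype.ext
    apply ext_single
    intro a b
    exact congrArg Subtype.val (congrFun h (a, b))
  have hsurj : Function.Surjective f := by
    intro g
    have hval : ∀ c d, (∑ a, ∑ b, entryMap k M a b (g (a, b)).1) (Matrix.single c d 1) =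
        (g (c, d)).1 := by
      intro c d
      simp only [LinearMap.sum_apply, entryMap_single]
      rw [Finset.sum_eq_single c, Finset.sum_eq_single d]
      · simp
      · intro b _ hb
        simp [hb.symm]
      · simp
      · intro a _ ha
        simp [ha.symm]
      · simp
    refine ⟨⟨∑ a, ∑ b, entryMap k M a b (g (a, b)).1, ?_⟩, ?_⟩
    · rw [mem_wsp_hom]
      intro c d
      rw [hval]
      exact (g (c, d)).2
    · funext p
      apply Subtype.ext
      exact hval p.1 p.2
  rw [(LinearEquiv.ofBijective f ⟨hinj, hsurj⟩).finrank_eq, Module.finrank_pi_fintype,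
    Fintype.sum_prod_type]

end hom

theorem e0_sum {ι : Type*} (N : ℕ) (s : Finset ι) (F : ι → (Fin N → ℤ) → ℤ) :
    e0 N (fun μ => ∑ i ∈ s, F i μ) = ∑ i ∈ s, e0 N (F i) := by
  unfold e0
  rw [Finset.sum_comm]
  refine Finset.sum_congr rfl fun σ _ => ?_
  rw [Finset.mul_sum]

theorem glhom {k M : Type u} [Field k] [CharZero k] {N : ℕ} (hR : RepN k N) [AddCommGroup M]
    [Module k M] [FiniteDimensional k M] (ρ : Matrix (Fin N) (Fin N) k →ₗ[k] Module.End k M)
    (hρ : ∀ X Y, ρ (X * Y - Y * X) = ρ X * ρ Y - ρ Y * ρ X)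
    (h1 : ρ 1 = 0) (htop : ⨆ μ : Fin N → ℤ, wsp ρ μ = ⊤)
    (hadj : ∀ φ : Matrix (Fin N) (Fin N) k →ₗ[k] M,
      (∀ X Y, ρ X (φ Y) = φ (X * Y - Y * X)) → φ = 0) :
    egl N (fun μ => (Module.finrank k (wsp ρ μ) : ℤ)) = 0 := by
  have h := hR (Matrix (Fin N) (Fin N) k →ₗ[k] M) (rhoHom ρ) (rhoHom_comm ρ hρ)
    (rhoHom_one ρ h1) (iSup_wsp_hom ρ htop) (by
      intro φ hφ
      apply hadj
      intro X Y
      have := congrArg (fun f => f Y) (hφ X)
      simp only [rhoHom_apply, LinearMap.zero_apply] at this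
      exact sub_eq_zero.1 this)
  have he : (fun μ => (Module.finrank k (wsp (rhoHom ρ) μ) : ℤ)) =
      fun μ => ∑ a, ∑ b, (Module.finrank k (wsp ρ (μ + epsd a b)) : ℤ) := by
    funext μ
    rw [finrank_wsp_hom]
    push_cast
    rfl
  rw [he, e0_sum] at h
  simp only [e0_sum] at h
  exact h

end Pool.Agent.Y76.KM
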